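import Mathlib

set_option autoImplicit false

/-!
# Project LQ: linear independence of the zeros of all L-functions modulo `q` and one inequality for primes

Definitions and jobs.  Throughout `GRHc χ` is the Riemann hypothesis for `L(s, χ)`, and `mc χ γ` is the multiplicity
of the zero `1/2 + iγ`.
-/

namespace Pool.Agent.Q253.LQ

open MeasureTheory Filter Topology Set Complex
open DirichletCharacter (LFunction completedLFunction)

/-- `L(s, χ) ≠ 0` for `1/2 < Re s < 1` -/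
def GRHc {q : ℕ} [NeZero q] (χ : DirichletCharacter ℂ q) : Prop :=
  ∀ s : ℂ, 1 / 2 < s.re → s.re < 1 → LFunction χ s ≠ 0

/-- the multiplicity of `1/2 + iγ` as a zero of `L(s, χ)` -/
noncomputable def mc {q : ℕ} [NeZero q] (χ : DirichletCharacter ℂ q) (γ : ℝ) : ℕ :=
  analyticOrderNatAt (LFunction χ) (1 / 2 + (γ : ℂ) * I)

/-- Riemann's function -/
noncomputable def xi (s : ℂ) : ℂ := (1 + s * (s - 1) * completedRiemannZeta₀ s) / 2

open Classical in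
/-- the completed `L`-function of the primitive character which induces `χ` -/
noncomputable def XL {q : ℕ} [NeZero q] (χ : DirichletCharacter ℂ q) (s : ℂ) : ℂ :=
  haveI : NeZero χ.conductor := ⟨χ.conductor_ne_zero⟩
  if χ = 1 then xi s else (χ.conductor : ℂ) ^ (s / 2) * completedLFunction χ.primitiveCharacter s

/-- LQ-PF.  Partial fractions.  Proof.  Let `X(z) = c XL χ (1/2 + z)`, `|c| = 1`, be symmetric:
`X(-conj z) = conj (X z)` (`Pool/Agent/Q119/HV/Zdb.lean` for `χ ≠ 1`: symmetry, growth `exp (K (1+|z|)^(3/2))`, zeros,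
`logDeriv_X`; for `χ = 1` the function `XX` of `Pool/Agent/H24R2/JP`, `facXi` in
`Pool/Agent/Results/MP_9f0eeb_nt/GenericValues.lean`).  All zeros of `X` are on the imaginary axis, `iγ` with the
multiplicity `mc χ γ` (the Euler factors at `p | q` and the Gamma factor have no zeros and poles there).  For a finite
set `S` of reals `X_S(z) = X(z) / ∏_{γ ∈ S} (-i (z - iγ))^m(γ)` has the same properties (divide by one factor at a time;
`-i (z - iγ)` is symmetric up to the sign, which a constant corrects), so by `Pool.Agent.Q253.HV.S_ZG`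
(proved: `Pool.Agent.Q68.HV.t_ZG`)
`R_S(δ, y) := Re X'/X(δ+iy) - ∑_{γ ∈ S} m(γ) δ/(δ²+(y-γ)²) = Re X_S'/X_S(δ+iy) ≥ 0`.  This gives `m(γ)/(1+γ²)` summable and
`R(δ, y) := Re X'/X(δ+iy) - ∑_γ m(γ) δ/(δ²+(y-γ)²) ≥ 0`.  Next, if `X_S` has no zero `iγ` with `|γ - y| ≤ r`, then
`R_S(δ, y) ≤ 3 (δ/r) R_S(r, y)` for `0 < δ ≤ r`: the polynomials `Q_N → X_S` of `Pool.Agent.Y275.GL.had_real` (see
`Pool/Agent/Q68/HV/ZG.lean`) have no zeros in the closed disc of radius `r` about `iy` for large `N` (uniform convergence,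
`|X_S|` is bounded below there), all their zeros are on the imaginary axis, and for `|v| ≥ r ≥ δ`:
`δ/(δ²+v²) ≤ δ/v² ≤ 2 (δ/r) r/(r²+v²)`.  Take for `S` all zeros with `|γ - y| ≤ r` and more and more others:
`R(δ, y) ≤ 3 (δ/r) R(r, y) ≤ 3 (δ/r) Re X'/X(r+iy)` for every `r ≥ δ`, and the last factor is `O(log r)` for `r → ∞`
(for `r > 1` : `L'/L` is bounded, and the digamma function is `O(log)`).  Hence `R = 0`, the first formula.
The second formula: both sides are analytic functions of `z` in `Re z > 0` with the same real parts and they agree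
at `z = w`. -/
def S_PF : Prop := ∀ (q : ℕ) [NeZero q] (χ : DirichletCharacter ℂ q), GRHc χ →
  Summable (fun γ : ℝ => (mc χ γ : ℝ) / (1 + γ ^ 2)) ∧
  (∀ z : ℂ, 0 < z.re → (logDeriv (XL χ) (1 / 2 + z)).re = ∑' γ : ℝ, (mc χ γ : ℝ) * (1 / (z - γ * I)).re) ∧
  (∀ z w : ℂ, 0 < z.re → 0 < w.re → logDeriv (XL χ) (1 / 2 + z) - logDeriv (XL χ) (1 / 2 + w) =
    ∑' γ : ℝ, (mc χ γ : ℂ) * (1 / (z - γ * I) - 1 / (w - γ * I)))

/-- LQ-SY.  Conjugation: `L(conj s, conj χ) = conj L(s, χ)`, hence `mc χ (-γ) = mc χ⁻¹ γ`. -/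
def S_SY : Prop := ∀ (q : ℕ) [NeZero q] (χ : DirichletCharacter ℂ q) (γ : ℝ), mc χ (-γ) = mc χ⁻¹ γ

/-- `∑ Λ(n) χ(n) n^(-1/2) e^(-|u - log n|)` minus the main term -/
noncomputable def EC {q : ℕ} [NeZero q] (χ : DirichletCharacter ℂ q) (u : ℝ) : ℂ :=
  (∑' n : ℕ, ((ArithmeticFunction.vonMangoldt n : ℝ) : ℂ) * χ (n : ZMod q) *
    ((Real.exp (-(Real.log n / 2)) * Real.exp (-|u - Real.log n|) : ℝ) : ℂ)) -
    (open Classical in if χ = 1 then ((8 / 3 * Real.exp (u / 2) : ℝ) : ℂ) else 0)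

/-- LQ-EF.  The explicit formula.  Proof by uniqueness of Laplace transforms.  Let `c_γ = 2/(1+γ²)`, `ψ` the primitive
character, of conductor `N`, inducing `χ`, `a = 0` for even and `a = 1` for odd `ψ`.  First replace `χ` by `ψ`: the
difference of the sums is at most `∑_{p | q} ∑_k log p p^(-k/2) e^(-|u - k log p|) = O(e^(-u/2))` (split at `k log p ≤ u`).
The Laplace transform of `EC ψ` at `z`, `Re z > 1/2`, `z ≠ 1`, is
`- (2/(1-z²)) ℓ(z) + (1/(1-z)) ℓ(1)` with `ℓ(z) = L'/L(1/2+z, ψ)`, because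
`∫_0^∞ e^(-|u-v|) e^(-zu) du = 2 e^(-zv)/(1-z²) - e^(-v)/(1-z)` for `v ≥ 0` (minus `(8/3)/(z-1/2)` if `ψ = 1`).
By `S_PF`, with `Ξ = logDeriv (XL ψ)(1/2 + ·) = ℓ + G`, where `G(z) = (1/2) log N + logDeriv Gammaℝ (1/2+z+a)` (and
`+ 1/(1/2+z) + 1/(z-1/2)` if `ψ = 1`), one finds, as `Ξ(z) - Ξ(1) = ∑ m(γ) (1-z)/((z-iγ)(1-iγ))`, for the transform of
`D(u) = EC ψ u + ∑ m(γ) c_γ e^(iγu)`:
`conj(Ξ(1))/(1+z) + (2/(1-z²)) G(z) - (1/(1-z)) G(1)` (minus the term of the pole).  Here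
`logDeriv Gammaℝ s = -(log π)/2 + (1/2) digamma(s/2)`, `digamma(w) = -γ_E + ∑_k (1/(k+1) - 1/(k+w))`, and with
`b_k = 2k+1/2+a`: `(2/(1-z²)) (1/(b+z)) - (1/(1-z)) (1/(b+1)) = (1/(b-1))/(1+z) - (2/(b²-1))/(b+z)`.  So `D(u)` is
`A e^(-u) + ∑_k (2/(b_k²-1)) e^(-b_k u)` (for `ψ = 1` plus a multiple of `e^(-u/2)`), absolutely convergent for `u ≥ 0`;
both sides are continuous with at most exponential growth and have the same Laplace transform for large real `z`,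
so they agree.  (Any other proof of the decay is welcome, for instance contour integration: the shape of `D` is not
needed.) -/
def S_EF : Prop := ∀ (q : ℕ) [NeZero q] (χ : DirichletCharacter ℂ q), GRHc χ →
  ∃ C : ℝ, ∀ u : ℝ, 0 ≤ u →
    ‖EC χ u + ∑' γ : ℝ, (mc χ γ : ℂ) * ((2 / (1 + γ ^ 2) : ℝ) : ℂ) * cexp (I * γ * u)‖ ≤ C * Real.exp (-(u / 4))

/-- `φ(q) ∑_{n ≡ 1 (q)} Λ(n) n^(-1/2) min(n/x, x/n) - (8/3) √x` for `x = e^u` -/
noncomputable def EE (q : ℕ) (u : ℝ) : ℝ :=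
  (Nat.totient q : ℝ) * (∑' n : ℕ, if n % q = 1 % q then ArithmeticFunction.vonMangoldt n *
    (Real.exp (-(Real.log n / 2)) * Real.exp (-|u - Real.log n|)) else 0) - 8 / 3 * Real.exp (u / 2)

/-- LQ-CL.  Orthogonality of the characters, and continuity. -/
def S_CL : Prop := ∀ (q : ℕ) [NeZero q], Continuous (EE q) ∧
  ∀ u : ℝ, ((EE q u : ℝ) : ℂ) = ∑ χ : DirichletCharacter ℂ q, EC χ u

/-- LQ-LA.  Landau's theorem.  Let `f = -EE q`.  As `e^(λx) ≥ λ² x²/2` for `x ≥ 0`, the positive part `f₊` has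
`∫_0^U f₊² ≤ C U` for large `U`, so `F₊(z) = ∫_0^∞ f₊(u) e^(-zu) du` is analytic for `Re z > 0`.  For `Re z > 1/2` the transform of
`f` is `F(z) = ∑_χ ((2/(1-z²)) ℓ_χ(z) - (1/(1-z)) ℓ_χ(1)) + (8/3)/(z-1/2)`, `ℓ_χ(z) = L'/L(1/2+z, χ)` (see `S_EF`),
which is meromorphic for `Re z > 0`; the poles at `z = 1` and `z = 1/2` cancel, and at a zero `1/2 + z₀`, `Re z₀ > 0`, of
one of the `L(s, χ)` it has a pole with residue `2M/(1-z₀²)`, `M ≥ 1` the total multiplicity (no cancellation).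
Let `f₋ = f₊ - f ≥ 0` and `σ₀` its abscissa of convergence.  If `σ₀ > 0`: either `F` is analytic at the point
`σ₀` (so `F₋ = F₊ - F` is, against Landau's theorem for nonnegative functions), or `1/2+σ₀` is a real zero,
`F(σ) → +∞` for `σ → σ₀+` (here `σ₀ < 1/2`, `2/(1-σ₀²) > 0`), and `F₋ → -∞`, against `F₋ ≥ 0`.  So `σ₀ ≤ 0`,
and `F = F₊ - F₋` has no poles for `Re z > 0`. -/
def S_LA : Prop := ∀ (q : ℕ) [NeZero q] (lam : ℝ), 0 < lam →
  (∃ C : ℝ, ∀ᶠ U : ℝ in atTop, ∫ u in (0 : ℝ)..U, Real.exp (-(lam * EE q u)) ≤ C * U) →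
  ∀ χ : DirichletCharacter ℂ q, GRHc χ

/-- the Bessel function `I₀` -/
noncomputable def I0 (w : ℂ) : ℂ := ∑' k : ℕ, (w / 2) ^ (2 * k) / ((Nat.factorial k : ℂ) ^ 2)

/-- LQ-MV.  Mean values.  `γ_i > 0`, `c_i > 0` summable, `f(u) = κ + ∑ 2 c_i cos(γ_i u) + r(u)`, `r → 0`.
Proof: `e^(2x cos θ) = ∑_n J_n(x) e^(inθ)` with `J_n(x) = ∑_{k} x^(|n|+2k)/(k! (k+|n|)!) > 0` for `x > 0`,
absolutely convergent, `J_0(x) = I0(2x)`.  For a finite set `S` of indices multiply these series: the mean over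
`[0, U]`, `U → ∞`, of `exp(∑_{i ∈ S} 2 x_i cos(γ_i u))` is the sum of `∏_{i ∈ S} J_{n_i}(x_i)` over all `n ∈ ℤ^S` with
`∑ n_i γ_i = 0` (the mean of `e^(iau)` is `1` for `a = 0`, else `0`); so it is at least `∏_{i ∈ S} I0(2x_i)`, with equality
if the `γ_i` are independent, and at least `∏_{i ∈ S} I0(2x_i) + ∏_{i ∈ S} J_{n_i}(x_i)` for each relation `n ≠ 0`.  The
remaining indices change `f` by at most `2 ∑_{i ∉ S} c_i` (given `ε` choose `S` large), which gives the lower bound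
`∏_i I0(2 lam c_i) e^(lam κ)` (the product converges since `1 ≤ I0(2x) ≤ e^(x²)` for real `x`) and the limit in the
independent case.  For the strict inequality fix a relation supported on `S₀`; for larger `S` the extra term is at least
`∏_{i ∈ S₀} J_{n_i}(x_i) > 0`, as `J_0 ≥ 1`.  The term `r(u)` does not change the means: it is small for large `u`, and on
bounded intervals `f` is bounded. -/
def S_MV : Prop := ∀ (ι : Type) (g c : ι → ℝ) (κ lam : ℝ) (r : ℝ → ℝ), (∀ i, 0 < g i) → (∀ i, 0 < c i) → Summable c →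
  0 < lam → Measurable r → (∃ B : ℝ, ∀ u, |r u| ≤ B) → Tendsto r atTop (𝓝 0) →
  (∃ m : ℝ, Real.exp (lam * κ) * (∏' i, (I0 ((2 * lam * c i : ℝ) : ℂ)).re) ≤ m ∧
    (¬ LinearIndependent ℚ g → Real.exp (lam * κ) * (∏' i, (I0 ((2 * lam * c i : ℝ) : ℂ)).re) < m) ∧
    (LinearIndependent ℚ g → m = Real.exp (lam * κ) * (∏' i, (I0 ((2 * lam * c i : ℝ) : ℂ)).re)) ∧
    ∀ ε : ℝ, 0 < ε → ∀ᶠ U : ℝ in atTop,
      m - ε ≤ (1 / U) * ∫ u in (0 : ℝ)..U, Real.exp (lam * (κ + ∑' i, 2 * c i * Real.cos (g i * u) + r u))) ∧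
  (LinearIndependent ℚ g → Tendsto (fun U : ℝ => (1 / U) *
    ∫ u in (0 : ℝ)..U, Real.exp (lam * (κ + ∑' i, 2 * c i * Real.cos (g i * u) + r u))) atTop
    (𝓝 (Real.exp (lam * κ) * (∏' i, (I0 ((2 * lam * c i : ℝ) : ℂ)).re))))

/-- LQ-CT.  The contour integral.  `|I0(w) - 1| ≤ ∑_{k ≥ 1} 4^(-k)/(k!)² < 1/3` for `|w| ≤ 1`, so `log I0(w)` (principal
value) is analytic there, even, and vanishes at `0`; for `a ≥ 1` one has
`∮_{|t| = 1/2} log I0(4λ/t)/(a - t) dt = 2πi log I0(4λ/a)`: expand `log I0(4λ/t) = ∑_{j ≥ 1} κ_j (4λ)^(2j) t^(-2j)` and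
`1/(a-t) = ∑_{k ≥ 0} t^k/a^(k+1)` on the circle, both absolutely convergent (or: substitute `t = 1/s`).  Then sum over
`γ` with `a = 1 + γ²`: on the circle `|1/(1+γ²-t)| ≤ 2/(1+γ²)`, exchange sum and integral. -/
def S_CT : Prop := ∀ (m : ℝ → ℝ) (H : ℂ → ℂ) (lam : ℝ), (∀ γ, 0 ≤ m γ) → Summable (fun γ : ℝ => m γ / (1 + γ ^ 2)) →
  (∀ t : ℂ, ‖t‖ = 1 / 2 → H t = ∑' γ : ℝ, (m γ : ℂ) / (1 + (γ : ℂ) ^ 2 - t)) → 0 < lam → lam ≤ 1 / 8 →
  Summable (fun γ : ℝ => m γ * Real.log (I0 ((4 * lam / (1 + γ ^ 2) : ℝ) : ℂ)).re) ∧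
  (∮ t in C(0, 1 / 2), H t * Complex.log (I0 (4 * lam / t))) =
    2 * Real.pi * I * ((∑' γ : ℝ, m γ * Real.log (I0 ((4 * lam / (1 + γ ^ 2) : ℝ) : ℂ)).re : ℝ) : ℂ)

end Pool.Agent.Q253.LQ
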