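import Pool.Agent.Q253.LQ.F4
import Pool.Agent.Q253.CP.F4

set_option autoImplicit false

/-! # Project LQ: linear independence in the form of the problem -/

namespace Pool.Agent.Q253.LQ

open MeasureTheory Filter Topology Set Complex
open DirichletCharacter (LFunction completedLFunction)
open Pool.Agent.Q253.CP (half_re1 half_im1 half_ne1 ordNat_iff strip_line ord_ne_top)

variable {q : ℕ} [NeZero q]

/-- the problem's statement for one modulus -/
def LIz (q : ℕ) [NeZero q] : Prop :=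
  (∀ χ : DirichletCharacter ℂ q, ∀ ρ : ℂ, 0 < ρ.re → ρ.re < 1 → 0 < ρ.im → LFunction χ ρ = 0 →
    deriv (LFunction χ) ρ ≠ 0) ∧
  LinearIndependent ℚ (fun p : {p : DirichletCharacter ℂ q × ℂ //
    0 < p.2.re ∧ p.2.re < 1 ∧ 0 < p.2.im ∧ LFunction p.1 p.2 = 0} => p.1.2.im)

lemma mc_one_iff (χ : DirichletCharacter ℂ q) {γ : ℝ} (h : LFunction χ (1 / 2 + (γ : ℂ) * I) = 0) :
    mc χ γ ≤ 1 ↔ deriv (LFunction χ) (1 / 2 + (γ : ℂ) * I) ≠ 0 := by
  set s : ℂ := 1 / 2 + (γ : ℂ) * I with hs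
  have hs1 : s ≠ 1 := half_ne1 γ
  have hA : AnalyticAt ℂ (LFunction χ) s := Pool.Agent.Q14.LQ.LF_an χ hs1
  have h1 := hA.analyticOrderAt_deriv_add_one
  have h2 : (fun z => LFunction χ z - LFunction χ s) = LFunction χ := by
    funext z; rw [h, sub_zero]
  rw [h2] at h1
  have h3 := ENat.natCast_toNat (ord_ne_top χ hs1)
  have h4 : mc χ γ = (analyticOrderAt (LFunction χ) s).toNat := rfl
  rw [← h3, ← h4] at h1
  constructor
  · intro h5 h6
    have h7 : analyticOrderAt (deriv (LFunction χ)) s ≠ 0 := by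
      rw [Ne, hA.deriv.analyticOrderAt_eq_zero, not_not]
      exact h6
    have h8 : (1 : ℕ∞) ≤ analyticOrderAt (deriv (LFunction χ)) s := Order.one_le_iff_ne_zero.2 h7
    have h9 : (1 : ℕ∞) + 1 ≤ (mc χ γ : ℕ∞) := by
      rw [← h1]
      gcongr
    have h10 : 2 ≤ mc χ γ := by
      have : ((2 : ℕ) : ℕ∞) ≤ (mc χ γ : ℕ∞) := by
        refine le_trans (le_of_eq ?_) h9
        norm_num
      exact_mod_cast this
    omega
  · intro h5
    have h7 : analyticOrderAt (deriv (LFunction χ)) s = 0 := hA.deriv.analyticOrderAt_eq_zero.2 h5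
    rw [h7, zero_add] at h1
    have : ((1 : ℕ) : ℕ∞) = (mc χ γ : ℕ∞) := by
      rw [← h1]; norm_num
    have h8 : 1 = mc χ γ := by exact_mod_cast this
    omega

lemma mt_ne (γ : ℝ) : mt q γ ≠ 0 ↔ ∃ χ : DirichletCharacter ℂ q, LFunction χ (1 / 2 + (γ : ℂ) * I) = 0 := by
  unfold mt
  rw [Ne, Finset.sum_eq_zero_iff]
  push Not
  constructor
  · rintro ⟨χ, -, h⟩
    exact ⟨χ, (ordNat_iff χ (half_ne1 γ)).1 h⟩
  · rintro ⟨χ, h⟩
    exact ⟨χ, Finset.mem_univ _, (ordNat_iff χ (half_ne1 γ)).2 h⟩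

lemma mc_le_mt (χ : DirichletCharacter ℂ q) (γ : ℝ) : mc χ γ ≤ mt q γ := by
  unfold mt
  exact Finset.single_le_sum (f := fun χ => mc χ γ) (fun _ _ => Nat.zero_le _) (Finset.mem_univ χ)

lemma on_line (hG : GRHq q) {χ : DirichletCharacter ℂ q} {ρ : ℂ} (h0 : 0 < ρ.re) (h1 : ρ.re < 1)
    (hz : LFunction χ ρ = 0) : (1 / 2 : ℂ) + (ρ.im : ℂ) * I = ρ := by
  have h5 := strip_line (hG χ) h0 h1 hz
  apply Complex.ext
  · rw [half_re1, h5]
  · rw [half_im1]

theorem LI_iff (hG : GRHq q) : LIz q ↔ LinearIndependent ℚ (gi : Idx q → ℝ) := by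
  constructor
  · rintro ⟨hsimple, hL⟩
    have hinj := hL.injective
    have hmc : ∀ (χ : DirichletCharacter ℂ q) (γ : ℝ), 0 < γ → mc χ γ ≤ 1 := by
      intro χ γ hγ
      by_cases h : LFunction χ (1 / 2 + (γ : ℂ) * I) = 0
      · exact (mc_one_iff χ h).2 (hsimple χ _ (by rw [half_re1]; norm_num) (by rw [half_re1]; norm_num)
          (by rw [half_im1]; exact hγ) h)
      · have : mc χ γ = 0 := by
          by_contra h2
          exact h ((ordNat_iff χ (half_ne1 γ)).1 h2)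
        omega
    have hone : ∀ (χ χ' : DirichletCharacter ℂ q) (γ : ℝ), 0 < γ → mc χ γ ≠ 0 → mc χ' γ ≠ 0 → χ = χ' := by
      intro χ χ' γ hγ h1 h2
      have a1 := (ordNat_iff χ (half_ne1 γ)).1 h1
      have a2 := (ordNat_iff χ' (half_ne1 γ)).1 h2
      have b : ∀ ψ : DirichletCharacter ℂ q, LFunction ψ (1 / 2 + (γ : ℂ) * I) = 0 →
          0 < (1 / 2 + (γ : ℂ) * I).re ∧ (1 / 2 + (γ : ℂ) * I).re < 1 ∧ 0 < (1 / 2 + (γ : ℂ) * I).im ∧
            LFunction ψ (1 / 2 + (γ : ℂ) * I) = 0 := fun ψ hψ =>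
        ⟨by rw [half_re1]; norm_num, by rw [half_re1]; norm_num, by rw [half_im1]; exact hγ, hψ⟩
      have h3 := @hinj ⟨(χ, 1 / 2 + (γ : ℂ) * I), b χ a1⟩ ⟨(χ', 1 / 2 + (γ : ℂ) * I), b χ' a2⟩ rfl
      have h4 := congrArg (fun p => p.1.1) h3
      exact h4
    have hmt : ∀ γ : ℝ, 0 < γ → mt q γ ≤ 1 := by
      intro γ hγ
      by_cases h : mt q γ = 0
      · omega
      · obtain ⟨χ, hχ⟩ := (mt_ne γ).1 h
        have h1 : mc χ γ ≠ 0 := (ordNat_iff χ (half_ne1 γ)).2 hχ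
        have h2 : mt q γ = mc χ γ := by
          unfold mt
          refine Finset.sum_eq_single χ (fun χ' _ hne => ?_) (fun h => absurd (Finset.mem_univ _) h)
          by_contra h3
          exact hne (hone χ' χ γ hγ h3 h1)
        rw [h2]
        exact hmc χ γ hγ
    have hex : ∀ i : Idx q, ∃ χ : DirichletCharacter ℂ q, LFunction χ (1 / 2 + (gi i : ℂ) * I) = 0 := fun i =>
      (mt_ne (gi i)).1 (Nat.pos_iff_ne_zero.1 i.2.pos)
    choose χi hχi using hex
    set F : Idx q → {p : DirichletCharacter ℂ q × ℂ // 0 < p.2.re ∧ p.2.re < 1 ∧ 0 < p.2.im ∧ LFunction p.1 p.2 = 0} :=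
      fun i => ⟨(χi i, 1 / 2 + (gi i : ℂ) * I), by
        refine ⟨?_, ?_, ?_, hχi i⟩
        · show 0 < (1 / 2 + (gi i : ℂ) * I).re
          rw [half_re1]; norm_num
        · show (1 / 2 + (gi i : ℂ) * I).re < 1
          rw [half_re1]; norm_num
        · show 0 < (1 / 2 + (gi i : ℂ) * I).im
          rw [half_im1]; exact gi_pos i⟩ with hF
    have hFim : ∀ i, (F i).1.2.im = gi i := fun i => half_im1 _
    have hFinj : Function.Injective F := by
      intro i j hij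
      have h1 : gi i = gi j := by rw [← hFim, ← hFim, hij]
      obtain ⟨γ, k⟩ := i
      obtain ⟨γ', k'⟩ := j
      have h2 : γ = γ' := Subtype.ext h1
      subst h2
      have h3 := hmt γ.1 γ.2
      have h4 := k.2
      have h5 := k'.2
      have h6 : k = k' := by
        apply Fin.ext
        omega
      rw [h6]
    have h7 := hL.comp F hFinj
    have e : (fun p : {p : DirichletCharacter ℂ q × ℂ // 0 < p.2.re ∧ p.2.re < 1 ∧ 0 < p.2.im ∧ LFunction p.1 p.2 = 0} =>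
        p.1.2.im) ∘ F = gi := by
      funext i
      exact hFim i
    rw [e] at h7
    exact h7
  · intro hL
    have hinj := hL.injective
    have hmt : ∀ γ : ℝ, 0 < γ → mt q γ ≤ 1 := by
      intro γ hγ
      by_contra h
      have h2 : 1 < mt q γ := not_le.1 h
      have h1 : 0 < mt q γ := lt_trans one_pos h2
      set i0 : Idx q := ⟨⟨γ, hγ⟩, ⟨0, h1⟩⟩ with hi0
      set i1 : Idx q := ⟨⟨γ, hγ⟩, ⟨1, h2⟩⟩ with hi1
      have h3 : i0 = i1 := hinj rfl
      have h4 : (i0.2 : ℕ) = (i1.2 : ℕ) := congrArg (fun i : Idx q => (i.2 : ℕ)) h3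
      rw [hi0, hi1] at h4
      exact zero_ne_one h4
    refine ⟨fun χ ρ h0 h1 h2 h3 => ?_, ?_⟩
    · have h5 := on_line hG h0 h1 h3
      rw [← h5] at h3 ⊢
      exact (mc_one_iff χ h3).1 ((mc_le_mt χ _).trans (hmt _ h2))
    · have hpos : ∀ p : {p : DirichletCharacter ℂ q × ℂ // 0 < p.2.re ∧ p.2.re < 1 ∧ 0 < p.2.im ∧
          LFunction p.1 p.2 = 0}, 0 < mt q p.1.2.im := by
        intro p
        refine Nat.pos_of_ne_zero ((mt_ne _).2 ⟨p.1.1, ?_⟩)
        rw [on_line hG p.2.1 p.2.2.1 p.2.2.2.2]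
        exact p.2.2.2.2
      set F : {p : DirichletCharacter ℂ q × ℂ // 0 < p.2.re ∧ p.2.re < 1 ∧ 0 < p.2.im ∧ LFunction p.1 p.2 = 0} → Idx q :=
        fun p => ⟨⟨p.1.2.im, p.2.2.2.1⟩, ⟨0, hpos p⟩⟩ with hF
      have hFinj : Function.Injective F := by
        intro p p' hpp
        have h1 : p.1.2.im = p'.1.2.im := congrArg gi hpp
        have h2 : p.1.2 = p'.1.2 := by
          rw [← on_line hG p.2.1 p.2.2.1 p.2.2.2.2, ← on_line hG p'.2.1 p'.2.2.1 p'.2.2.2.2, h1]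
        have h3 : p.1.1 = p'.1.1 := by
          by_contra hne
          have a1 : mc p.1.1 p.1.2.im ≠ 0 := by
            refine (ordNat_iff _ (half_ne1 _)).2 ?_
            rw [on_line hG p.2.1 p.2.2.1 p.2.2.2.2]
            exact p.2.2.2.2
          have a2 : mc p'.1.1 p.1.2.im ≠ 0 := by
            refine (ordNat_iff _ (half_ne1 _)).2 ?_
            rw [h1, on_line hG p'.2.1 p'.2.2.1 p'.2.2.2.2]
            exact p'.2.2.2.2
          have a3 : mc p.1.1 p.1.2.im + mc p'.1.1 p.1.2.im ≤ mt q p.1.2.im := by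
            classical
            unfold mt
            rw [← Finset.sum_pair (f := fun χ : DirichletCharacter ℂ q => mc χ p.1.2.im) hne]
            exact Finset.sum_le_sum_of_subset_of_nonneg (Finset.subset_univ _) fun _ _ _ => Nat.zero_le _
          have a4 := hmt _ p.2.2.2.1
          omega
        exact Subtype.ext (Prod.ext h3 h2)
      exact hL.comp F hFinj

lemma mt_zero_iff : mt q 0 = 0 ↔ ∀ χ : DirichletCharacter ℂ q, LFunction χ (1 / 2) ≠ 0 := by
  rw [← not_iff_not, ← Ne, mt_ne]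
  push Not
  simp

end Pool.Agent.Q253.LQ
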