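import Pool.Agent.Q14.LQ.EF3
import Pool.Agent.Q14.LQ.SY
import Pool.Agent.Q151.LQ.PF

set_option autoImplicit false

/-! # Project LQ: the partial fractions of the union -/

namespace Pool.Agent.Q253.LQ

open MeasureTheory Filter Topology Set Complex
open DirichletCharacter (LFunction completedLFunction)

/-- total multiplicity of `1/2 + iγ` -/
noncomputable def mt (q : ℕ) [NeZero q] (γ : ℝ) : ℕ := ∑ χ : DirichletCharacter ℂ q, mc χ γ

/-- the logarithmic derivative of the product -/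
noncomputable def Lam (q : ℕ) [NeZero q] (z : ℂ) : ℂ := ∑ χ : DirichletCharacter ℂ q, logDeriv (XL χ) (1 / 2 + z)

/-- GRH modulo `q` -/
def GRHq (q : ℕ) [NeZero q] : Prop := ∀ χ : DirichletCharacter ℂ q, GRHc χ

variable {q : ℕ} [NeZero q]

lemma mt_neg (γ : ℝ) : mt q (-γ) = mt q γ := by
  unfold mt
  simp_rw [Pool.Agent.Q14.LQ.t_SY q]
  exact Equiv.sum_comp (Equiv.inv (DirichletCharacter ℂ q)) (fun χ => mc χ γ)

/-- sums over characters and sums over ordinates -/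
lemma mt_sum {E : Type} [NormedAddCommGroup E] [NormedSpace ℝ E] [CompleteSpace E] (g : ℝ → E)
    (h : ∀ χ : DirichletCharacter ℂ q, Summable fun γ : ℝ => (mc χ γ : ℝ) • g γ) :
    Summable (fun γ : ℝ => (mt q γ : ℝ) • g γ) ∧
      ∑' γ : ℝ, (mt q γ : ℝ) • g γ = ∑ χ : DirichletCharacter ℂ q, ∑' γ : ℝ, (mc χ γ : ℝ) • g γ := by
  have e : (fun γ : ℝ => (mt q γ : ℝ) • g γ) = fun γ => ∑ χ : DirichletCharacter ℂ q, (mc χ γ : ℝ) • g γ := by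
    funext γ
    unfold mt
    push_cast
    rw [Finset.sum_smul]
  rw [e]
  exact ⟨summable_sum fun χ _ => h χ, Summable.tsum_finsetSum fun χ _ => h χ⟩

lemma mt_sm (hG : GRHq q) : Summable (fun γ : ℝ => (mt q γ : ℝ) / (1 + γ ^ 2)) := by
  have h := (mt_sum (q := q) (fun γ => 1 / (1 + γ ^ 2)) (fun χ => by
    simp only [smul_eq_mul, mul_one_div]
    exact (Pool.Agent.Q151.LQ.t_PF q χ (hG χ)).1)).1
  simp only [smul_eq_mul, mul_one_div] at h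
  exact h

/-- `|z - iγ|² ≥ c (1 + γ²)` -/
lemma low {z : ℂ} (hz : 0 < z.re) : ∃ c : ℝ, 0 < c ∧ ∀ γ : ℝ, c * (1 + γ ^ 2) ≤ ‖z - γ * I‖ ^ 2 := by
  set K : ℝ := (1 + 2 * z.im ^ 2) / z.re ^ 2 + 2 with hK
  have hK0 : 0 < K := by positivity
  refine ⟨1 / K, by positivity, fun γ => ?_⟩
  have e : ‖z - γ * I‖ ^ 2 = z.re ^ 2 + (z.im - γ) ^ 2 := by
    rw [← Complex.normSq_eq_norm_sq, Complex.normSq_apply]
    simp
    ring
  rw [e, one_div_mul_eq_div, div_le_iff₀ hK0]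
  have h1 : 1 + γ ^ 2 ≤ 1 + 2 * z.im ^ 2 + 2 * (z.im - γ) ^ 2 := by nlinarith [sq_nonneg (γ - 2 * z.im)]
  have h2 : z.re ^ 2 * K = 1 + 2 * z.im ^ 2 + 2 * z.re ^ 2 := by rw [hK]; field_simp
  have h3 : (z.im - γ) ^ 2 * 2 ≤ (z.im - γ) ^ 2 * K := by
    refine mul_le_mul_of_nonneg_left ?_ (sq_nonneg _)
    rw [hK]
    have : 0 ≤ (1 + 2 * z.im ^ 2) / z.re ^ 2 := by positivity
    linarith
  nlinarith [sq_nonneg z.re]

lemma ne_zI {z : ℂ} (hz : 0 < z.re) (γ : ℝ) : z - γ * I ≠ 0 := by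
  intro h
  have := congrArg Complex.re h
  simp at this
  linarith

lemma ne_zI' {z : ℂ} (hz : 0 < z.re) (γ : ℝ) : z + γ * I ≠ 0 := by
  intro h
  have := congrArg Complex.re h
  simp at this
  linarith

lemma ne_sq {z : ℂ} (hz : 0 < z.re) (γ : ℝ) : z ^ 2 + (γ : ℂ) ^ 2 ≠ 0 := by
  have e : z ^ 2 + (γ : ℂ) ^ 2 = (z - γ * I) * (z + γ * I) := by
    ring_nf
    rw [I_sq]
    ring
  rw [e]
  exact mul_ne_zero (ne_zI hz γ) (ne_zI' hz γ)

/-- differences of the Cauchy kernels -/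
lemma cauchy_le {z w : ℂ} (hz : 0 < z.re) (hw : 0 < w.re) :
    ∃ C : ℝ, ∀ γ : ℝ, ‖1 / (z - γ * I) - 1 / (w - γ * I)‖ ≤ C / (1 + γ ^ 2) := by
  obtain ⟨c, hc, h1⟩ := low hz
  obtain ⟨d, hd, h2⟩ := low hw
  refine ⟨‖w - z‖ / Real.sqrt (c * d), fun γ => ?_⟩
  have e : 1 / (z - γ * I) - 1 / (w - γ * I) = (w - z) / ((z - γ * I) * (w - γ * I)) := by
    have := ne_zI hz γ
    have := ne_zI hw γ
    field_simp
    ring
  rw [e, norm_div, div_div, norm_mul]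
  have h3 : Real.sqrt (c * d) * (1 + γ ^ 2) ≤ ‖z - γ * I‖ * ‖w - γ * I‖ := by
    refine abs_le_of_sq_le_sq' ?_ (by positivity) |>.2
    rw [mul_pow, mul_pow, Real.sq_sqrt (by positivity)]
    have h4 := h1 γ
    have h5 := h2 γ
    calc c * d * (1 + γ ^ 2) ^ 2 = (c * (1 + γ ^ 2)) * (d * (1 + γ ^ 2)) := by ring
      _ ≤ ‖z - γ * I‖ ^ 2 * ‖w - γ * I‖ ^ 2 := mul_le_mul h4 h5 (by positivity) (by positivity)
  exact div_le_div_of_nonneg_left (norm_nonneg _) (by positivity) h3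

/-- the real form of the kernel -/
lemma kern_le {z : ℂ} (hz : 0 < z.re) : ∃ C : ℝ, ∀ γ : ℝ, ‖z / (z ^ 2 + (γ : ℂ) ^ 2)‖ ≤ C / (1 + γ ^ 2) := by
  obtain ⟨c, hc, h1⟩ := low hz
  refine ⟨‖z‖ / c, fun γ => ?_⟩
  have e : z ^ 2 + (γ : ℂ) ^ 2 = (z - γ * I) * (z - ((-γ : ℝ) : ℂ) * I) := by
    push_cast
    ring_nf
    rw [I_sq]
    ring
  rw [norm_div, e, div_div, norm_mul]
  have h3 : c * (1 + γ ^ 2) ≤ ‖z - γ * I‖ * ‖z - ((-γ : ℝ) : ℂ) * I‖ := by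
    refine abs_le_of_sq_le_sq' ?_ (by positivity) |>.2
    rw [mul_pow, mul_pow]
    have h4 := h1 γ
    have h5 := h1 (-γ)
    rw [neg_sq] at h5
    calc c ^ 2 * (1 + γ ^ 2) ^ 2 = (c * (1 + γ ^ 2)) * (c * (1 + γ ^ 2)) := by ring
      _ ≤ ‖z - γ * I‖ ^ 2 * ‖z - ((-γ : ℝ) : ℂ) * I‖ ^ 2 := mul_le_mul h4 h5 (by positivity) (by positivity)
  exact div_le_div_of_nonneg_left (norm_nonneg _) (by positivity) h3

lemma sm_of_le {E : Type} [NormedAddCommGroup E] [NormedSpace ℝ E] [CompleteSpace E] {m : ℝ → ℕ}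
    (hm : Summable (fun γ : ℝ => (m γ : ℝ) / (1 + γ ^ 2))) {g : ℝ → E} {C : ℝ} (h : ∀ γ, ‖g γ‖ ≤ C / (1 + γ ^ 2)) :
    Summable (fun γ : ℝ => (m γ : ℝ) • g γ) := by
  refine Summable.of_norm_bounded (hm.mul_left C) fun γ => ?_
  rw [norm_smul, Real.norm_of_nonneg (Nat.cast_nonneg _)]
  calc (m γ : ℝ) * ‖g γ‖ ≤ (m γ : ℝ) * (C / (1 + γ ^ 2)) := mul_le_mul_of_nonneg_left (h γ) (Nat.cast_nonneg _)
    _ = _ := by ring

/-- the sum over the ordinates -/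
noncomputable def SZ (q : ℕ) [NeZero q] (z : ℂ) : ℂ := ∑' γ : ℝ, (mt q γ : ℝ) • (z / (z ^ 2 + (γ : ℂ) ^ 2))

lemma Lam_sub (hG : GRHq q) {z w : ℂ} (hz : 0 < z.re) (hw : 0 < w.re) : Lam q z - Lam q w = SZ q z - SZ q w := by
  obtain ⟨C, hC⟩ := cauchy_le hz hw
  obtain ⟨C1, hC1⟩ := kern_le hz
  obtain ⟨C2, hC2⟩ := kern_le hw
  set P : ℝ → ℂ := fun γ => 1 / (z - γ * I) - 1 / (w - γ * I) with hP
  have hPF := fun χ : DirichletCharacter ℂ q => Pool.Agent.Q151.LQ.t_PF q χ (hG χ)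
  have h1 : Lam q z - Lam q w = ∑' γ : ℝ, (mt q γ : ℝ) • P γ := by
    rw [(mt_sum (q := q) P fun χ => sm_of_le (hPF χ).1 hC).2]
    unfold Lam
    rw [← Finset.sum_sub_distrib]
    refine Finset.sum_congr rfl fun χ _ => ?_
    rw [(hPF χ).2.2 z w hz hw]
    refine tsum_congr fun γ => ?_
    rw [hP, Complex.real_smul, Complex.ofReal_natCast]
  have hm := mt_sm hG
  have hsP : Summable (fun γ : ℝ => (mt q γ : ℝ) • P γ) := sm_of_le hm hC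
  have h2 : ∑' γ : ℝ, (mt q γ : ℝ) • P γ = ∑' γ : ℝ, (mt q γ : ℝ) • P (-γ) := by
    rw [← (Equiv.neg ℝ).tsum_eq (fun γ : ℝ => (mt q γ : ℝ) • P γ)]
    refine tsum_congr fun γ => ?_
    simp only [Equiv.neg_apply, mt_neg]
  have hsP' : Summable (fun γ : ℝ => (mt q γ : ℝ) • P (-γ)) := by
    have := (Equiv.neg ℝ).summable_iff.2 hsP
    refine this.congr fun γ => ?_
    simp only [Function.comp, Equiv.neg_apply, mt_neg]
  have h3 : ∑' γ : ℝ, (mt q γ : ℝ) • P γ + ∑' γ : ℝ, (mt q γ : ℝ) • P (-γ) = 2 * (SZ q z - SZ q w) := by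
    unfold SZ
    rw [← hsP.tsum_add hsP', ← (sm_of_le hm hC1).tsum_sub (sm_of_le hm hC2), ← tsum_mul_left]
    refine tsum_congr fun γ => ?_
    rw [hP, ← smul_add, ← smul_sub, mul_smul_comm]
    congr 1
    have a1 := ne_zI hz γ
    have a2 := ne_zI' hz γ
    have a3 := ne_zI hw γ
    have a4 := ne_zI' hw γ
    have e1 : z ^ 2 + (γ : ℂ) ^ 2 = (z - γ * I) * (z + γ * I) := by
      ring_nf; rw [I_sq]; ring
    have e2 : w ^ 2 + (γ : ℂ) ^ 2 = (w - γ * I) * (w + γ * I) := by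
      ring_nf; rw [I_sq]; ring
    rw [e1, e2]
    push_cast
    rw [neg_mul, sub_neg_eq_add, sub_neg_eq_add]
    have e3 : 1 / (z - γ * I) + 1 / (z + γ * I) = 2 * (z / ((z - γ * I) * (z + γ * I))) := by
      field_simp
      ring
    have e4 : 1 / (w - γ * I) + 1 / (w + γ * I) = 2 * (w / ((w - γ * I) * (w + γ * I))) := by
      field_simp
      ring
    linear_combination e3 - e4
  rw [← h2, ← two_mul] at h3
  rw [h1]
  exact mul_left_cancel₀ two_ne_zero h3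

lemma Lam_re (hG : GRHq q) {x : ℝ} (hx : 0 < x) : (Lam q x).re = (SZ q x).re ∧ (SZ q x).im = 0 := by
  have hm := mt_sm hG
  have hxr : 0 < (x : ℂ).re := by rw [ofReal_re]; exact hx
  obtain ⟨C1, hC1⟩ := kern_le hxr
  have hPF := fun χ : DirichletCharacter ℂ q => Pool.Agent.Q151.LQ.t_PF q χ (hG χ)
  have e0 : ∀ γ : ℝ, (x : ℂ) / ((x : ℂ) ^ 2 + (γ : ℂ) ^ 2) = ((x / (x ^ 2 + γ ^ 2) : ℝ) : ℂ) := by
    intro γ; push_cast; rfl
  have hS : SZ q x = ((∑' γ : ℝ, (mt q γ : ℝ) * (x / (x ^ 2 + γ ^ 2)) : ℝ) : ℂ) := by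
    unfold SZ
    rw [Complex.ofReal_tsum]
    refine tsum_congr fun γ => ?_
    rw [e0, Complex.real_smul]
    push_cast
    rfl
  have hR : (Lam q x).re = ∑' γ : ℝ, (mt q γ : ℝ) * (x / (x ^ 2 + γ ^ 2)) := by
    have hk : ∀ γ : ℝ, ‖x / (x ^ 2 + γ ^ 2)‖ ≤ C1 / (1 + γ ^ 2) := by
      intro γ
      have := hC1 γ
      rw [e0, Complex.norm_real] at this
      exact this
    have h1 := (mt_sum (q := q) (fun γ => x / (x ^ 2 + γ ^ 2)) fun χ => sm_of_le (hPF χ).1 hk).2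
    simp only [smul_eq_mul] at h1
    rw [h1]
    unfold Lam
    rw [re_sum]
    refine Finset.sum_congr rfl fun χ _ => ?_
    rw [(hPF χ).2.1 x hxr]
    refine tsum_congr fun γ => ?_
    congr 1
    have e1 : (1 : ℂ) / (x - γ * I) = ((x / (x ^ 2 + γ ^ 2) : ℝ) : ℂ) + ((γ / (x ^ 2 + γ ^ 2) : ℝ) : ℂ) * I := by
      have a1 := ne_zI hxr γ
      have a2 : ((x : ℂ) ^ 2 + (γ : ℂ) ^ 2) ≠ 0 := ne_sq hxr γ
      push_cast
      field_simp
      ring_nf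
      rw [I_sq]
      ring
    rw [e1, add_re, ofReal_re, re_ofReal_mul, I_re, mul_zero, add_zero]
  rw [hS]
  refine ⟨by rw [hR, ofReal_re], ofReal_im _⟩

end Pool.Agent.Q253.LQ
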