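import Pool.Agent.Q253.LQ.F1
import Pool.Agent.H429R2.GP.XF

set_option autoImplicit false

/-! # Project LQ: the logarithmic derivative of the product is real on the real axis -/

namespace Pool.Agent.Q253.LQ

open MeasureTheory Filter Topology Set Complex
open DirichletCharacter (LFunction completedLFunction)
open Pool.Agent.Q14.LQ

variable {q : ℕ} [NeZero q]

/-- `Pool.Agent.Q14.LQ.Xi_split` with a real constant (the same proof) -/
theorem Xi_split' (χ : DirichletCharacter ℂ q) [NeZero χ.conductor] : ∃ (a K : ℝ), (a = 0 ∨ a = 1) ∧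
    ∀ z : ℂ, 1 / 2 < z.re → Xi χ z = logDeriv (LFunction χ.primitiveCharacter) (1 / 2 + z) +
      (K + logDeriv Gammaℝ (1 / 2 + z + a) + P1 χ * (1 / (1 / 2 + z) + 1 / (-(1 / 2) + z))) := by
  by_cases hχ : χ = 1
  · refine ⟨0, 0, Or.inl rfl, fun z hz => ?_⟩
    have hN : χ.conductor = 1 := DirichletCharacter.eq_one_iff_conductor_eq_one.1 hχ
    have hre : 1 < (1 / 2 + z).re := by
      rw [Complex.add_re, half_re']
      linarith
    have e1 : Xi χ z = logDeriv xi (1 / 2 + z) := by
      unfold Xi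
      congr 1
      funext s
      unfold XL
      rw [if_pos hχ]
    rw [e1, logDeriv_xi hre, LF_one hN]
    unfold P1
    rw [if_pos hχ]
    have e2 : 1 / 2 + z - 1 = -(1 / 2) + z := by ring
    rw [e2]
    push_cast
    rw [add_zero]
    ring
  · set ψ := χ.primitiveCharacter with hψdef
    have hψ : ψ.IsPrimitive := χ.primitiveCharacter_isPrimitive
    have hN : 1 < χ.conductor := by
      have h1 : χ.conductor ≠ 1 := fun h => hχ (DirichletCharacter.eq_one_iff_conductor_eq_one.2 h)
      have h2 := NeZero.ne χ.conductor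
      omega
    obtain ⟨a, ha, haa⟩ := aa_cases ψ
    refine ⟨a, (1 / 2) * Real.log χ.conductor, ha, fun z hz => ?_⟩
    have hre : 1 < (1 / 2 + z).re := by
      rw [Complex.add_re, half_re']
      linarith
    have hL : LFunction ψ (1 / 2 + z) ≠ 0 := by
      rw [DirichletCharacter.LFunction_eq_LSeries ψ hre]
      exact DirichletCharacter.LSeries_ne_zero_of_one_lt_re ψ hre
    have hX := Pool.Agent.Q119.HV.logDeriv_X hN hψ (z := z) (by linarith) hL
    have hc := Pool.Agent.Q119.HV.cc_ne hψ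
    have hNc : (χ.conductor : ℂ) ≠ 0 := by exact_mod_cast NeZero.ne χ.conductor
    have hfun : (fun z : ℂ => XL χ (1 / 2 + z)) =
        fun z : ℂ => ((χ.conductor : ℂ) ^ (1 / 4 : ℂ) / Pool.Agent.Q119.HV.cc ψ) * Pool.Agent.Q119.HV.X ψ z := by
      funext w
      unfold XL Pool.Agent.Q119.HV.X
      rw [if_neg hχ]
      have e1 : (χ.conductor : ℂ) ^ ((1 / 2 + w) / 2) = (χ.conductor : ℂ) ^ (1 / 4 : ℂ) * (χ.conductor : ℂ) ^ (w / 2) := by
        rw [← Complex.cpow_add _ _ hNc]
        congr 1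
        ring
      rw [e1]
      field_simp
      rfl
    have e1 : Xi χ z = logDeriv (fun z : ℂ => XL χ (1 / 2 + z)) z := by
      unfold Xi
      rw [logDeriv_apply, logDeriv_apply, deriv_comp_const_add]
    rw [e1, hfun, logDeriv_const_mul z _ (div_ne_zero (by
      rw [Ne, cpow_eq_zero_iff]
      exact fun h => hNc h.1) hc), hX, haa]
    unfold P1
    rw [if_neg hχ]
    push_cast
    ring

lemma logDeriv_real {f : ℂ → ℂ} (hf : ∀ z, f ((starRingEnd ℂ) z) = (starRingEnd ℂ) (f z)) (x : ℝ) :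
    (logDeriv f x).im = 0 := by
  have e : (fun z => (starRingEnd ℂ) (f ((starRingEnd ℂ) z))) = f := by
    funext z
    rw [hf, Complex.conj_conj]
  have h1 : deriv f (x : ℂ) = (starRingEnd ℂ) (deriv f (x : ℂ)) := by
    have h2 := deriv_conj_conj (f := f)
    have h3 := congrFun h2 (x : ℂ)
    simp only [Function.comp, Complex.conj_ofReal] at h3
    have h4 : (⇑(starRingEnd ℂ) ∘ f ∘ ⇑(starRingEnd ℂ)) = f := e
    rw [← h3]
    conv_lhs => rw [← h4]
  have h2 : f (x : ℂ) = (starRingEnd ℂ) (f (x : ℂ)) := by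
    rw [← hf, Complex.conj_ofReal]
  rw [logDeriv_apply, ← Complex.conj_eq_iff_im, map_div₀, ← h1, ← h2]

lemma DS_tendsto (ψ : DirichletCharacter ℂ q) :
    Tendsto (fun x : ℝ => DS (bc ψ) (x : ℂ)) atTop (𝓝 0) := by
  have h := tendsto_tsum_of_dominated_convergence (𝓕 := atTop) (β := ℕ)
    (f := fun (x : ℝ) (n : ℕ) => bc ψ n * cexp (-(x : ℂ) * Real.log n)) (g := fun _ => 0)
    (bound := fun n => ‖bc ψ n‖ * Real.exp (-(1 * Real.log n))) (HB_bc ψ 1 (by norm_num)) ?_ ?_
  · simp only [tsum_zero] at h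
    exact h
  · intro n
    rcases Nat.lt_or_ge n 2 with hn | hn
    · have h0 : bc ψ n = 0 := by
        unfold bc
        interval_cases n <;> simp
      simp only [h0, zero_mul]
      exact tendsto_const_nhds
    · have hlog : 0 < Real.log n := Real.log_pos (by exact_mod_cast hn)
      have h1 : Tendsto (fun x : ℝ => Real.exp (-(x * Real.log n))) atTop (𝓝 0) := by
        refine Real.tendsto_exp_neg_atTop_nhds_zero.comp ?_
        exact tendsto_id.atTop_mul_const hlog
      have h2 := h1.const_mul ‖bc ψ n‖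
      rw [mul_zero] at h2
      refine squeeze_zero_norm (fun x => ?_) h2
      rw [norm_mul, Complex.norm_exp]
      have e : (-(x : ℂ) * Real.log n).re = -(x * Real.log n) := by
        rw [← ofReal_neg, ← ofReal_mul, ofReal_re]; ring
      rw [e]
  · filter_upwards [eventually_ge_atTop 1] with x hx n
    rw [norm_mul, Complex.norm_exp]
    have e : (-(x : ℂ) * Real.log n).re = -(x * Real.log n) := by
      rw [← ofReal_neg, ← ofReal_mul, ofReal_re]; ring
    rw [e]
    have hlog : 0 ≤ Real.log n := Real.log_natCast_nonneg n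
    gcongr

/-- the imaginary part tends to zero -/
lemma Lam_im : Tendsto (fun x : ℝ => (Lam q x).im) atTop (𝓝 0) := by
  have h1 : ∀ χ : DirichletCharacter ℂ q, Tendsto (fun x : ℝ => (Xi χ x).im) atTop (𝓝 0) := by
    intro χ
    have : NeZero χ.conductor := ⟨χ.conductor_ne_zero⟩
    obtain ⟨a, K, ha, h⟩ := Xi_split' χ
    have h3 : Tendsto (fun x : ℝ => (-DS (bc χ.primitiveCharacter) (x : ℂ)).im) atTop (𝓝 0) := by
      have := (DS_tendsto χ.primitiveCharacter).neg
      rw [neg_zero] at this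
      have h4 := (Complex.continuous_im.tendsto 0).comp this
      rw [zero_im] at h4
      exact h4
    refine h3.congr' ?_
    filter_upwards [eventually_gt_atTop 1] with x hx
    have hxr : 1 / 2 < (x : ℂ).re := by rw [ofReal_re]; linarith
    rw [h x hxr, DS_bc χ.primitiveCharacter hxr, neg_neg, add_im]
    have e1 : ((K : ℂ) + logDeriv Gammaℝ (1 / 2 + x + a) + P1 χ * (1 / (1 / 2 + x) + 1 / (-(1 / 2) + x))).im = 0 := by
      have e2 : (1 / 2 + (x : ℂ) + a) = ((1 / 2 + x + a : ℝ) : ℂ) := by push_cast; rfl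
      have e3 : (logDeriv Gammaℝ (1 / 2 + (x : ℂ) + a)).im = 0 := by
        rw [e2]
        exact logDeriv_real H429.GP.Gammaℝ_conj _
      have e4 : (P1 χ * (1 / (1 / 2 + (x : ℂ)) + 1 / (-(1 / 2) + x))).im = 0 := by
        have e5 : (1 / (1 / 2 + (x : ℂ)) + 1 / (-(1 / 2) + x)) = ((1 / (1 / 2 + x) + 1 / (-(1 / 2) + x) : ℝ) : ℂ) := by
          push_cast; rfl
        rw [e5]
        unfold P1
        split_ifs
        · rw [one_mul, ofReal_im]
        · rw [zero_mul, zero_im]
      rw [add_im, add_im, e3, e4, ofReal_im]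
      norm_num
    rw [e1, add_zero]
  have h2 := tendsto_finsetSum Finset.univ fun χ (_ : χ ∈ (Finset.univ : Finset (DirichletCharacter ℂ q))) => h1 χ
  rw [Finset.sum_const_zero] at h2
  refine h2.congr fun x => ?_
  unfold Lam
  rw [im_sum]
  rfl

/-- **partial fractions of the union** -/
theorem Lam_eq (hG : GRHq q) {z : ℂ} (hz : 0 < z.re) : Lam q z = SZ q z := by
  have h1 : ∀ x : ℝ, 0 < x → Lam q z - SZ q z = (((Lam q x).im : ℝ) : ℂ) * I := by
    intro x hx
    have hxr : 0 < (x : ℂ).re := by rw [ofReal_re]; exact hx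
    have h2 := Lam_sub hG hz hxr
    obtain ⟨h3, h4⟩ := Lam_re hG hx
    have h5 : Lam q x - SZ q x = (((Lam q x).im : ℝ) : ℂ) * I := by
      apply Complex.ext
      · rw [sub_re, h3, re_ofReal_mul, I_re]; ring
      · rw [sub_im, h4, im_ofReal_mul, I_im]; ring
    rw [← h5]
    linear_combination h2
  have h2 : Tendsto (fun x : ℝ => (((Lam q x).im : ℝ) : ℂ) * I) atTop (𝓝 (((0 : ℝ) : ℂ) * I)) :=
    ((Complex.continuous_ofReal.tendsto 0).comp Lam_im).mul_const I
  have h3 : Tendsto (fun x : ℝ => (((Lam q x).im : ℝ) : ℂ) * I) atTop (𝓝 (Lam q z - SZ q z)) := by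
    refine tendsto_const_nhds.congr' ?_
    filter_upwards [eventually_gt_atTop 0] with x hx using h1 x hx
  have h4 := tendsto_nhds_unique h3 h2
  rw [ofReal_zero, zero_mul] at h4
  exact sub_eq_zero.1 h4

end Pool.Agent.Q253.LQ
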