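import Pool.Agent.Q253.LQ.F2
import Pool.Agent.Q174.LQ.CT
import Pool.Agent.Q151.LQ.MV
import Pool.Agent.Q14.LQ.CL
import Pool.Agent.Q14.LQ.EF
import Pool.Agent.Q14.LQ.LA

set_option autoImplicit false

/-! # Project LQ: the index set of the positive ordinates, the explicit formula, the constant -/

namespace Pool.Agent.Q253.LQ

open MeasureTheory Filter Topology Set Complex
open DirichletCharacter (LFunction completedLFunction)

variable {q : ℕ} [NeZero q]

lemma even_sum {F : ℝ → ℝ} (hF : Summable F) (he : ∀ x, F (-x) = F x) :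
    ∑' x : ℝ, F x = F 0 + 2 * ∑' x : {x : ℝ // 0 < x}, F x := by
  classical
  set P : Set ℝ := {x | 0 < x} with hP
  set M : Set ℝ := {x | x < 0} with hM
  have h1 : ∑' x : {x : ℝ // 0 < x}, F x = ∑' x : ℝ, P.indicator F x := tsum_subtype P F
  have h2 : ∑' x : ℝ, M.indicator F x = ∑' x : ℝ, P.indicator F x := by
    rw [← (Equiv.neg ℝ).tsum_eq (fun x : ℝ => M.indicator F x)]
    refine tsum_congr fun x => ?_
    simp only [Equiv.neg_apply]
    by_cases hx : 0 < x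
    · rw [indicator_of_mem (show -x ∈ M from neg_lt_zero.2 hx), indicator_of_mem (show x ∈ P from hx), he]
    · rw [indicator_of_notMem (show -x ∉ M from fun h => hx (neg_lt_zero.1 h)), indicator_of_notMem (show x ∉ P from hx)]
  have h3 : ∑' x : ℝ, ({0} : Set ℝ).indicator F x = F 0 := by
    rw [tsum_eq_single 0]
    · exact indicator_of_mem (mem_singleton 0) F
    · intro b hb
      exact indicator_of_notMem (by simpa using hb) F
  have e : ∀ x, F x = P.indicator F x + M.indicator F x + ({0} : Set ℝ).indicator F x := by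
    intro x
    rcases lt_trichotomy x 0 with hx | hx | hx
    · rw [indicator_of_notMem (show x ∉ P from not_lt.2 hx.le), indicator_of_mem (show x ∈ M from hx),
        indicator_of_notMem (show x ∉ ({0} : Set ℝ) from hx.ne)]
      ring
    · subst hx
      have a1 : (0 : ℝ) ∉ P := fun h => lt_irrefl (0 : ℝ) h
      have a2 : (0 : ℝ) ∉ M := fun h => lt_irrefl (0 : ℝ) h
      rw [indicator_of_notMem a1, indicator_of_notMem a2, indicator_of_mem (mem_singleton 0)]
      ring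
    · rw [indicator_of_mem (show x ∈ P from hx), indicator_of_notMem (show x ∉ M from not_lt.2 hx.le),
        indicator_of_notMem (show x ∉ ({0} : Set ℝ) from hx.ne')]
      ring
  calc ∑' x : ℝ, F x = ∑' x : ℝ, (P.indicator F x + M.indicator F x + ({0} : Set ℝ).indicator F x) := tsum_congr e
    _ = (∑' x : ℝ, P.indicator F x + ∑' x : ℝ, M.indicator F x) + ∑' x : ℝ, ({0} : Set ℝ).indicator F x := by
        rw [Summable.tsum_add ((hF.indicator P).add (hF.indicator M)) (hF.indicator _),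
          Summable.tsum_add (hF.indicator P) (hF.indicator M)]
    _ = _ := by rw [h1, h2, h3]; ring

/-- the positive ordinates, repeated with the multiplicity -/
abbrev Idx (q : ℕ) [NeZero q] : Type := Σ γ : {γ : ℝ // 0 < γ}, Fin (mt q γ)

/-- the ordinate -/
def gi (i : Idx q) : ℝ := i.1.1

lemma gi_pos (i : Idx q) : 0 < gi i := i.1.2

/-- the coefficient -/
noncomputable def ci (i : Idx q) : ℝ := 2 / (1 + gi i ^ 2)

lemma ci_pos (i : Idx q) : 0 < ci i := by unfold ci; positivity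

lemma idx_sm {h : ℝ → ℝ} (hs : Summable fun γ : ℝ => (mt q γ : ℝ) * |h γ|) : Summable fun i : Idx q => h (gi i) := by
  have h1 : Summable fun i : Idx q => |h (gi i)| := by
    rw [summable_sigma_of_nonneg fun i => abs_nonneg _]
    refine ⟨fun γ => (hasSum_fintype _).summable, ?_⟩
    have h2 : Summable fun γ : {γ : ℝ // 0 < γ} => (mt q γ : ℝ) * |h γ| := hs.comp_injective Subtype.val_injective
    refine h2.congr fun γ => ?_
    rw [tsum_fintype]
    unfold gi
    simp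
  exact h1.of_abs

lemma idx_sum {h : ℝ → ℝ} (hs : Summable fun γ : ℝ => (mt q γ : ℝ) * |h γ|) :
    ∑' i : Idx q, h (gi i) = ∑' γ : {γ : ℝ // 0 < γ}, (mt q γ : ℝ) * h γ := by
  rw [(idx_sm hs).tsum_sigma]
  refine tsum_congr fun γ => ?_
  rw [tsum_fintype]
  unfold gi
  simp

lemma ci_sm (hG : GRHq q) : Summable (ci : Idx q → ℝ) := by
  refine idx_sm (h := fun γ => 2 / (1 + γ ^ 2)) ?_
  refine ((mt_sm hG).mul_left 2).congr fun γ => ?_
  rw [abs_of_nonneg (by positivity)]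
  ring

/-- the explicit formula for the class of one -/
theorem EE_exp (hG : GRHq q) : ∃ C : ℝ, ∀ u : ℝ, 0 ≤ u →
    |-EE q u - (2 * (mt q 0 : ℝ) + ∑' i : Idx q, 2 * ci i * Real.cos (gi i * u))| ≤ C * Real.exp (-(u / 4)) := by
  have hEF := fun χ : DirichletCharacter ℂ q => Pool.Agent.Q14.LQ.t_EF Pool.Agent.Q151.LQ.t_PF q χ (hG χ)
  choose C hC using hEF
  refine ⟨∑ χ : DirichletCharacter ℂ q, C χ, fun u hu => ?_⟩
  have hm := mt_sm hG
  have hPF := fun χ : DirichletCharacter ℂ q => (Pool.Agent.Q151.LQ.t_PF q χ (hG χ)).1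
  set g : ℝ → ℝ := fun γ => 2 / (1 + γ ^ 2) * Real.cos (γ * u) with hg
  set gc : ℝ → ℂ := fun γ => ((2 / (1 + γ ^ 2) : ℝ) : ℂ) * cexp (I * γ * u) with hgc
  have hgcb : ∀ γ, ‖gc γ‖ ≤ 2 / (1 + γ ^ 2) := by
    intro γ
    rw [hgc]
    simp only
    rw [norm_mul, Complex.norm_real, Real.norm_of_nonneg (by positivity), Complex.norm_exp]
    have e : (I * γ * u).re = 0 := by
      rw [mul_assoc, ← ofReal_mul, mul_comm, re_ofReal_mul, I_re, mul_zero]
    rw [e, Real.exp_zero, mul_one]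
  have hgre : ∀ γ, (gc γ).re = g γ := by
    intro γ
    rw [hgc, hg]
    simp only
    rw [re_ofReal_mul]
    congr 1
    have e : I * (γ : ℂ) * u = ((γ * u : ℝ) : ℂ) * I := by push_cast; ring
    rw [e, Complex.exp_ofReal_mul_I_re]
  have hgb : ∀ γ, |g γ| ≤ 2 / (1 + γ ^ 2) := fun γ => by
    rw [← hgre]
    exact (abs_re_le_norm _).trans (hgcb γ)
  -- the sum of the explicit formulas
  have h1 : ‖((EE q u : ℝ) : ℂ) + ∑ χ : DirichletCharacter ℂ q, ∑' γ : ℝ, (mc χ γ : ℝ) • gc γ‖ ≤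
      (∑ χ : DirichletCharacter ℂ q, C χ) * Real.exp (-(u / 4)) := by
    rw [(Pool.Agent.Q14.LQ.t_CL q).2 u, ← Finset.sum_add_distrib, Finset.sum_mul]
    refine (norm_sum_le _ _).trans (Finset.sum_le_sum fun χ _ => ?_)
    have h2 := hC χ u hu
    have e : ∀ γ : ℝ, (mc χ γ : ℝ) • gc γ = (mc χ γ : ℂ) * ((2 / (1 + γ ^ 2) : ℝ) : ℂ) * cexp (I * γ * u) := by
      intro γ
      rw [hgc]
      simp only
      rw [Complex.real_smul, Complex.ofReal_natCast]
      ring
    simp_rw [e]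
    exact h2
  have h2 : (∑ χ : DirichletCharacter ℂ q, ∑' γ : ℝ, (mc χ γ : ℝ) • gc γ).re = ∑' γ : ℝ, (mt q γ : ℝ) * g γ := by
    have h3 := (mt_sum (q := q) gc fun χ => sm_of_le (hPF χ) hgcb).2
    rw [← h3, Complex.re_tsum (sm_of_le hm hgcb)]
    refine tsum_congr fun γ => ?_
    rw [Complex.smul_re, hgre, smul_eq_mul]
  have h3 : ∑' γ : ℝ, (mt q γ : ℝ) * g γ = 2 * (mt q 0 : ℝ) + ∑' i : Idx q, 2 * ci i * Real.cos (gi i * u) := by
    have hs : Summable fun γ : ℝ => (mt q γ : ℝ) * g γ := by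
      have := sm_of_le (E := ℝ) hm (g := g) (C := 2) (fun γ => by rw [Real.norm_eq_abs]; exact hgb γ)
      exact this
    rw [even_sum hs fun x => by
      rw [mt_neg, hg]
      simp only
      rw [neg_sq, neg_mul, Real.cos_neg]]
    have hs2 : Summable fun γ : ℝ => (mt q γ : ℝ) * |g γ| := by
      have := sm_of_le (E := ℝ) hm (g := fun γ => |g γ|) (C := 2) (fun γ => by
        rw [Real.norm_eq_abs, abs_abs]; exact hgb γ)
      exact this
    rw [← idx_sum hs2]
    have e1 : (mt q 0 : ℝ) * g 0 = 2 * (mt q 0 : ℝ) := by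
      rw [hg]
      simp only
      rw [zero_mul, Real.cos_zero]
      norm_num
      ring
    rw [e1, ← tsum_mul_left]
    congr 1
    refine tsum_congr fun i => ?_
    rw [hg]
    unfold ci
    ring
  have h4 : |(((EE q u : ℝ) : ℂ) + ∑ χ : DirichletCharacter ℂ q, ∑' γ : ℝ, (mc χ γ : ℝ) • gc γ).re| ≤
      (∑ χ : DirichletCharacter ℂ q, C χ) * Real.exp (-(u / 4)) := (abs_re_le_norm _).trans h1
  rw [add_re, ofReal_re, h2, h3] at h4
  rw [← abs_neg]
  have e : -(-EE q u - (2 * (mt q 0 : ℝ) + ∑' i : Idx q, 2 * ci i * Real.cos (gi i * u))) =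
      EE q u + (2 * (mt q 0 : ℝ) + ∑' i : Idx q, 2 * ci i * Real.cos (gi i * u)) := by ring
  rw [e]
  exact h4

/-- the generating function of the power sums of the zeros, from the right half plane -/
noncomputable def Hq (q : ℕ) [NeZero q] (t : ℂ) : ℂ := (1 - t) ^ (-(1 / 2) : ℂ) *
  ∑ χ : DirichletCharacter ℂ q, logDeriv (XL χ) (1 / 2 + (1 - t) ^ (1 / 2 : ℂ))

/-- the critical value -/
noncomputable def Rq (q : ℕ) [NeZero q] (lam : ℝ) : ℝ :=
  Real.exp (1 / (4 * Real.pi * I) * ∮ t in C(0, 1 / 2), Hq q t * Complex.log (I0 (4 * lam / t))).re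

lemma Hq_eq (hG : GRHq q) {t : ℂ} (ht : ‖t‖ = 1 / 2) : Hq q t = ∑' γ : ℝ, ((mt q γ : ℝ) : ℂ) / (1 + (γ : ℂ) ^ 2 - t) := by
  have hre : 0 < (1 - t).re := by
    have h1 := abs_re_le_norm t
    rw [ht] at h1
    rw [sub_re, one_re]
    linarith [(abs_le.1 h1).2]
  have hne : (1 - t) ≠ 0 := fun h => by rw [h, zero_re] at hre; exact lt_irrefl _ hre
  set z : ℂ := (1 - t) ^ (1 / 2 : ℂ) with hz
  have hz2 : z ^ 2 = 1 - t := by
    rw [hz, ← Complex.cpow_nat_mul]
    norm_num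
  have hzre : 0 < z.re := by
    rw [hz, Complex.cpow_def_of_ne_zero hne, Complex.exp_re]
    have h1 : |(1 - t).arg| < Real.pi / 2 := Complex.abs_arg_lt_pi_div_two_iff.2 (Or.inl hre)
    have e1 : (Complex.log (1 - t) * (1 / 2)).im = (1 - t).arg / 2 := by
      rw [show (1 / 2 : ℂ) = ((1 / 2 : ℝ) : ℂ) by push_cast; rfl, mul_comm, im_ofReal_mul, Complex.log_im]
      ring
    rw [e1]
    refine mul_pos (Real.exp_pos _) (Real.cos_pos_of_mem_Ioo ?_)
    have h2 := abs_lt.1 h1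
    have hpi := Real.pi_pos
    constructor <;> linarith [h2.1, h2.2]
  have hzne : z ≠ 0 := fun h => by rw [h, zero_re] at hzre; exact lt_irrefl _ hzre
  have h1 : Hq q t = z⁻¹ * Lam q z := by
    unfold Hq Lam
    rw [Complex.cpow_neg]
  rw [h1, Lam_eq hG hzre]
  unfold SZ
  rw [← tsum_mul_left]
  refine tsum_congr fun γ => ?_
  rw [hz2, Complex.real_smul]
  have e : (1 - t + (γ : ℂ) ^ 2) = 1 + (γ : ℂ) ^ 2 - t := by ring
  rw [e]
  field_simp

theorem Rq_eq (hG : GRHq q) {lam : ℝ} (h0 : 0 < lam) (h1 : lam ≤ 1 / 8) :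
    Rq q lam = Real.exp ((mt q 0 : ℝ) / 2 * Real.log (I0 ((4 * lam : ℝ) : ℂ)).re) *
      (∏' i : Idx q, (I0 ((2 * lam * ci i : ℝ) : ℂ)).re) ∧ 0 < ∏' i : Idx q, (I0 ((2 * lam * ci i : ℝ) : ℂ)).re := by
  have hsm := mt_sm hG
  obtain ⟨hs, hI⟩ := Pool.Agent.Q174.LQ.t_CT (fun γ => (mt q γ : ℝ)) (Hq q) lam (fun γ => Nat.cast_nonneg _) hsm
    (fun t ht => Hq_eq hG ht) h0 h1
  set ℓ : ℝ → ℝ := fun γ => Real.log (I0 ((4 * lam / (1 + γ ^ 2) : ℝ) : ℂ)).re with hℓ
  have hℓ0 : ∀ γ, 0 ≤ ℓ γ := fun γ => Real.log_nonneg (Pool.Agent.Q174.LQ.one_le_I0 _)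
  have hs' : Summable fun γ : ℝ => (mt q γ : ℝ) * |ℓ γ| := by
    refine hs.congr fun γ => ?_
    rw [abs_of_nonneg (hℓ0 γ)]
  have h2 : (1 / (4 * Real.pi * I) * ∮ t in C(0, 1 / 2), Hq q t * Complex.log (I0 (4 * lam / t))).re =
      1 / 2 * ∑' γ : ℝ, (mt q γ : ℝ) * ℓ γ := by
    rw [hI]
    have e : 1 / (4 * Real.pi * I) * (2 * Real.pi * I * ((∑' γ : ℝ, (mt q γ : ℝ) * ℓ γ : ℝ) : ℂ)) =
        ((1 / 2 * ∑' γ : ℝ, (mt q γ : ℝ) * ℓ γ : ℝ) : ℂ) := by
      have hpi : (Real.pi : ℂ) ≠ 0 := by exact_mod_cast Real.pi_ne_zero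
      push_cast
      field_simp
      norm_num
    rw [e, ofReal_re]
  have h3 : ∑' γ : ℝ, (mt q γ : ℝ) * ℓ γ = (mt q 0 : ℝ) * ℓ 0 + 2 * ∑' i : Idx q, ℓ (gi i) := by
    rw [even_sum hs fun x => by
      rw [mt_neg, neg_sq], idx_sum hs']
  have h4 : ∀ i : Idx q, ℓ (gi i) = Real.log (I0 ((2 * lam * ci i : ℝ) : ℂ)).re := by
    intro i
    rw [hℓ]
    simp only
    unfold ci
    congr 4
    ring
  have h5 : Summable fun i : Idx q => Real.log (I0 ((2 * lam * ci i : ℝ) : ℂ)).re :=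
    (idx_sm hs').congr h4
  have h6 := Real.rexp_tsum_eq_tprod (fun i : Idx q => by
    have := Pool.Agent.Q174.LQ.one_le_I0 (2 * lam * ci i)
    exact lt_of_lt_of_le one_pos this) h5
  rw [← h6]
  refine ⟨?_, Real.exp_pos _⟩
  unfold Rq
  rw [h2, h3, ← Real.exp_add]
  congr 1
  rw [tsum_congr h4]
  have e : ℓ 0 = Real.log (I0 ((4 * lam : ℝ) : ℂ)).re := by
    rw [hℓ]
    simp only
    norm_num
  rw [e]
  ring

end Pool.Agent.Q253.LQ
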