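import Pool.Agent.Q253.LQ.F3

set_option autoImplicit false

/-! # Project LQ: the equivalences -/

namespace Pool.Agent.Q253.LQ

open MeasureTheory Filter Topology Set Complex
open DirichletCharacter (LFunction completedLFunction)

variable {q : ℕ} [NeZero q]

/-- the almost periodic part -/
noncomputable def AP (q : ℕ) [NeZero q] (u : ℝ) : ℝ := ∑' i : Idx q, 2 * ci i * Real.cos (gi i * u)

lemma AP_cont (hG : GRHq q) : Continuous (AP q) := by
  unfold AP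
  refine continuous_tsum (fun i => by fun_prop) ((ci_sm hG).mul_left 2) fun i u => ?_
  rw [norm_mul, Real.norm_of_nonneg (by have := ci_pos i; positivity)]
  have := Real.abs_cos_le_one (gi i * u)
  rw [Real.norm_eq_abs]
  have h2 := ci_pos i
  nlinarith

lemma AP_le (hG : GRHq q) (u : ℝ) : AP q u ≤ ∑' i : Idx q, 2 * ci i := by
  unfold AP
  have hs : Summable fun i : Idx q => 2 * ci i := (ci_sm hG).mul_left 2
  refine Summable.tsum_le_tsum (fun i => ?_) ?_ hs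
  · have := Real.cos_le_one (gi i * u)
    have h2 := ci_pos i
    nlinarith
  · refine Summable.of_norm_bounded hs fun i => ?_
    rw [norm_mul, Real.norm_of_nonneg (by have := ci_pos i; positivity)]
    have := Real.abs_cos_le_one (gi i * u)
    rw [Real.norm_eq_abs]
    have h2 := ci_pos i
    nlinarith

/-- the remainder -/
theorem rem (hG : GRHq q) : ∃ r : ℝ → ℝ, Measurable r ∧ (∃ B : ℝ, ∀ u, |r u| ≤ B) ∧ Tendsto r atTop (𝓝 0) ∧
    ∀ u : ℝ, 0 ≤ u → -EE q u = 2 * (mt q 0 : ℝ) + AP q u + r u := by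
  classical
  obtain ⟨C, hC⟩ := EE_exp hG
  have hcE := (Pool.Agent.Q14.LQ.t_CL q).1
  refine ⟨fun u => if 0 ≤ u then -EE q u - (2 * (mt q 0 : ℝ) + AP q u) else 0, ?_, ⟨|C|, fun u => ?_⟩, ?_, fun u hu => ?_⟩
  · refine Measurable.ite measurableSet_Ici ?_ measurable_const
    exact (hcE.neg.sub (continuous_const.add (AP_cont hG))).measurable
  · simp only
    split_ifs with hu
    · refine (hC u hu).trans ?_
      have h1 : Real.exp (-(u / 4)) ≤ 1 := Real.exp_le_one_iff.2 (by linarith)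
      have h2 : 0 < Real.exp (-(u / 4)) := Real.exp_pos _
      calc C * Real.exp (-(u / 4)) ≤ |C| * Real.exp (-(u / 4)) := mul_le_mul_of_nonneg_right (le_abs_self _) h2.le
        _ ≤ |C| * 1 := mul_le_mul_of_nonneg_left h1 (abs_nonneg _)
        _ = |C| := mul_one _
    · rw [abs_zero]; exact abs_nonneg _
  · have h1 : Tendsto (fun u : ℝ => C * Real.exp (-(u / 4))) atTop (𝓝 0) := by
      have h2 : Tendsto (fun u : ℝ => Real.exp (-(u / 4))) atTop (𝓝 0) :=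
        Real.tendsto_exp_neg_atTop_nhds_zero.comp (tendsto_id.atTop_div_const (by norm_num : (0 : ℝ) < 4))
      have h3 := h2.const_mul C
      rwa [mul_zero] at h3
    refine squeeze_zero_norm' ?_ h1
    filter_upwards [eventually_ge_atTop 0] with u hu
    rw [if_pos hu, Real.norm_eq_abs]
    exact hC u hu
  · simp only [if_pos hu]
    ring

/-- the mean value -/
noncomputable def MM (q : ℕ) (lam U : ℝ) : ℝ := (1 / U) * ∫ u in (0 : ℝ)..U, Real.exp (-(lam * EE q u))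

/-- GRH is the finiteness of the mean -/
theorem grh_iff {lam : ℝ} (h0 : 0 < lam) : GRHq q ↔ ∃ C : ℝ, ∀ᶠ U : ℝ in atTop, MM q lam U ≤ C := by
  constructor
  · intro hG
    obtain ⟨r, hrm, ⟨B, hB⟩, hr0, hr⟩ := rem hG
    have hcE := (Pool.Agent.Q14.LQ.t_CL q).1
    set K : ℝ := Real.exp (lam * (2 * (mt q 0 : ℝ) + (∑' i : Idx q, 2 * ci i) + B)) with hK
    refine ⟨K, ?_⟩
    filter_upwards [eventually_gt_atTop 0] with U hU
    unfold MM
    have h1 : ∫ u in (0 : ℝ)..U, Real.exp (-(lam * EE q u)) ≤ ∫ _u in (0 : ℝ)..U, K := by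
      refine intervalIntegral.integral_mono_on hU.le ?_ (continuous_const.intervalIntegrable _ _) fun u hu => ?_
      · exact (Real.continuous_exp.comp ((hcE.const_mul lam).neg)).intervalIntegrable _ _
      · rw [hK]
        refine Real.exp_le_exp.2 ?_
        have h2 := hr u hu.1
        have h3 := AP_le hG u
        have h4 := (abs_le.1 (hB u)).2
        have e : -(lam * EE q u) = lam * (-EE q u) := by ring
        rw [e]
        exact mul_le_mul_of_nonneg_left (by linarith) h0.le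
    rw [intervalIntegral.integral_const, smul_eq_mul, sub_zero] at h1
    rw [one_div, inv_mul_le_iff₀ hU]
    exact h1
  · rintro ⟨C, hC⟩
    refine Pool.Agent.Q14.LQ.t_LA q lam h0 ⟨C, ?_⟩
    filter_upwards [hC, eventually_gt_atTop 0] with U h1 hU
    unfold MM at h1
    rw [one_div, inv_mul_le_iff₀ hU] at h1
    linarith

/-- the critical value is at most the constant of the mean value theorem, strictly for `L(1/2) = 0` -/
lemma Rq_le (hG : GRHq q) {lam : ℝ} (h0 : 0 < lam) (h1 : lam ≤ 1 / 8) :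
    Rq q lam ≤ Real.exp (lam * (2 * (mt q 0 : ℝ))) * (∏' i : Idx q, (I0 ((2 * lam * ci i : ℝ) : ℂ)).re) ∧
    (mt q 0 ≠ 0 → Rq q lam < Real.exp (lam * (2 * (mt q 0 : ℝ))) * (∏' i : Idx q, (I0 ((2 * lam * ci i : ℝ) : ℂ)).re)) ∧
    (mt q 0 = 0 → Rq q lam = ∏' i : Idx q, (I0 ((2 * lam * ci i : ℝ) : ℂ)).re) := by
  obtain ⟨hR, hP⟩ := Rq_eq hG h0 h1
  set P := ∏' i : Idx q, (I0 ((2 * lam * ci i : ℝ) : ℂ)).re with hPd
  have hlt : Real.log (I0 ((4 * lam : ℝ) : ℂ)).re < 4 * lam := by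
    have h2 := Pool.Agent.Q174.LQ.one_le_I0 (4 * lam)
    have h3 := Real.log_le_sub_one_of_pos (show 0 < (I0 ((4 * lam : ℝ) : ℂ)).re by linarith)
    have hx : ‖((4 * lam : ℝ) : ℂ)‖ = 4 * lam := by rw [Complex.norm_real, Real.norm_of_nonneg (by positivity)]
    have h4 := Pool.Agent.Q174.LQ.norm_I0_sub (w := ((4 * lam : ℝ) : ℂ)) (by rw [hx]; linarith)
    rw [hx] at h4
    have h5 : |(I0 ((4 * lam : ℝ) : ℂ) - 1).re| ≤ ‖I0 ((4 * lam : ℝ) : ℂ) - 1‖ := abs_re_le_norm _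
    rw [sub_re, one_re] at h5
    have h6 := (abs_le.1 h5).2
    nlinarith
  have hm0 : (0 : ℝ) ≤ mt q 0 := Nat.cast_nonneg _
  refine ⟨?_, fun hne => ?_, fun h => ?_⟩
  · rw [hR]
    refine mul_le_mul_of_nonneg_right (Real.exp_le_exp.2 ?_) hP.le
    nlinarith
  · rw [hR]
    refine mul_lt_mul_of_pos_right (Real.exp_lt_exp.2 ?_) hP
    have h2 : (0 : ℝ) < mt q 0 := by exact_mod_cast Nat.pos_of_ne_zero hne
    nlinarith
  · rw [hR, h]
    norm_num

theorem mv (hG : GRHq q) {lam : ℝ} (h0 : 0 < lam) (h1 : lam ≤ 1 / 8) :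
    (∀ ε : ℝ, 0 < ε → ∀ᶠ U : ℝ in atTop, Rq q lam - ε ≤ MM q lam U) ∧
    ((¬ LinearIndependent ℚ (gi : Idx q → ℝ) ∨ mt q 0 ≠ 0) →
      ∃ m : ℝ, Rq q lam < m ∧ ∀ ε : ℝ, 0 < ε → ∀ᶠ U : ℝ in atTop, m - ε ≤ MM q lam U) ∧
    (LinearIndependent ℚ (gi : Idx q → ℝ) → mt q 0 = 0 → Tendsto (MM q lam) atTop (𝓝 (Rq q lam))) := by
  obtain ⟨r, hrm, hB, hr0, hr⟩ := rem hG
  obtain ⟨⟨m, hm1, hm2, hm3, hm4⟩, hT⟩ := Pool.Agent.Q151.LQ.t_MV (Idx q) gi ci (2 * (mt q 0 : ℝ)) lam r gi_pos ci_pos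
    (ci_sm hG) h0 hrm hB hr0
  obtain ⟨R1, R2, R3⟩ := Rq_le hG h0 h1
  have hcongr : ∀ U : ℝ, 0 ≤ U → (1 / U) * ∫ u in (0 : ℝ)..U, Real.exp (lam * (2 * (mt q 0 : ℝ) +
      ∑' i : Idx q, 2 * ci i * Real.cos (gi i * u) + r u)) = MM q lam U := by
    intro U hU
    unfold MM
    congr 1
    refine intervalIntegral.integral_congr fun u hu => ?_
    rw [uIcc_of_le hU] at hu
    congr 1
    have h2 := hr u hu.1
    unfold AP at h2
    linear_combination (-lam) * h2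
  refine ⟨fun ε hε => ?_, fun h => ⟨m, ?_, fun ε hε => ?_⟩, fun hL h00 => ?_⟩
  · filter_upwards [hm4 ε hε, eventually_ge_atTop 0] with U hU hU0
    rw [hcongr U hU0] at hU
    linarith
  · by_cases h00 : mt q 0 = 0
    · rcases h with h | h
      · exact lt_of_le_of_lt R1 (hm2 h)
      · exact absurd h00 h
    · exact lt_of_lt_of_le (R2 h00) hm1
  · filter_upwards [hm4 ε hε, eventually_ge_atTop 0] with U hU hU0
    rw [hcongr U hU0] at hU
    exact hU
  · have h2 := hT hL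
    have e : Real.exp (lam * (2 * (mt q 0 : ℝ))) * (∏' i : Idx q, (I0 ((2 * lam * ci i : ℝ) : ℂ)).re) = Rq q lam := by
      rw [R3 h00, h00]
      norm_num
    rw [e] at h2
    refine h2.congr' ?_
    filter_upwards [eventually_ge_atTop 0] with U hU0
    exact hcongr U hU0

/-- **the equivalences** -/
theorem main {lam : ℝ} (h0 : 0 < lam) (h1 : lam ≤ 1 / 8) :
    ((GRHq q ∧ LinearIndependent ℚ (gi : Idx q → ℝ) ∧ mt q 0 = 0) ↔
      ∀ ε : ℝ, 0 < ε → ∀ᶠ U : ℝ in atTop, MM q lam U ≤ Rq q lam + ε) ∧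
    ((GRHq q ∧ LinearIndependent ℚ (gi : Idx q → ℝ) ∧ mt q 0 = 0) ↔ Tendsto (MM q lam) atTop (𝓝 (Rq q lam))) ∧
    (GRHq q → ∀ ε : ℝ, 0 < ε → ∀ᶠ U : ℝ in atTop, Rq q lam - ε ≤ MM q lam U) := by
  have hA : (GRHq q ∧ LinearIndependent ℚ (gi : Idx q → ℝ) ∧ mt q 0 = 0) → Tendsto (MM q lam) atTop (𝓝 (Rq q lam)) :=
    fun h => (mv h.1 h0 h1).2.2 h.2.1 h.2.2
  have hB : Tendsto (MM q lam) atTop (𝓝 (Rq q lam)) → ∀ ε : ℝ, 0 < ε → ∀ᶠ U : ℝ in atTop, MM q lam U ≤ Rq q lam + ε := by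
    intro h ε hε
    filter_upwards [h.eventually (gt_mem_nhds (show Rq q lam < Rq q lam + ε by linarith))] with U hU using le_of_lt hU
  have hC : (∀ ε : ℝ, 0 < ε → ∀ᶠ U : ℝ in atTop, MM q lam U ≤ Rq q lam + ε) →
      (GRHq q ∧ LinearIndependent ℚ (gi : Idx q → ℝ) ∧ mt q 0 = 0) := by
    intro h
    have hG : GRHq q := (grh_iff h0).2 ⟨Rq q lam + 1, h 1 one_pos⟩
    refine ⟨hG, ?_⟩
    by_contra hcon
    have h2 : ¬ LinearIndependent ℚ (gi : Idx q → ℝ) ∨ mt q 0 ≠ 0 := by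
      by_contra h3
      rw [not_or, not_not, not_not] at h3
      exact hcon h3
    obtain ⟨m, hm, h3⟩ := (mv hG h0 h1).2.1 h2
    have hd : 0 < (m - Rq q lam) / 3 := by linarith
    obtain ⟨U, hU1, hU2⟩ := ((h _ hd).and (h3 _ hd)).exists
    linarith
  exact ⟨⟨fun h => hB (hA h), hC⟩, ⟨hA, fun h => hC (hB h)⟩, fun hG => (mv hG h0 h1).1⟩

end Pool.Agent.Q253.LQ
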